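import Pool.Agent.H33.DM.Guess
import Pool.Agent.H92.PK.VCard

/-!
# The diamond principle in `(ZFSet, ∈)`
-/

set_option autoImplicit false

open Cardinal Order BV PK HM

namespace DM

/-- the von Neumann ordinal of an element of `ω₁` -/
noncomputable def zz (α : Om) : ZFSet.{0} := (od α).toZFSet

/-- the von Neumann ordinal `ω₁` -/
noncomputable def zo : ZFSet.{0} := (Ordinal.omega.{0} 1).toZFSet

theorem mem_zo (x : ZFSet.{0}) : VE x zo ↔ ∃ α : Om, x = zz α := by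
  show x ∈ zo ↔ _
  unfold zo
  rw [Ordinal.mem_toZFSet_iff]
  constructor
  · rintro ⟨a, ha, rfl⟩
    obtain ⟨α, rfl⟩ := exists_od ha
    exact ⟨α, rfl⟩
  · rintro ⟨α, rfl⟩
    exact ⟨od α, od_lt α, rfl⟩

theorem zz_mem_zz (β α : Om) : VE (zz β) (zz α) ↔ β < α := by
  show zz β ∈ zz α ↔ _
  unfold zz
  rw [Ordinal.toZFSet_mem_toZFSet_iff, od_lt_od]

theorem mem_zz (x : ZFSet.{0}) (α : Om) : VE x (zz α) ↔ ∃ β, β < α ∧ x = zz β := by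
  constructor
  · intro h
    have h' : x ∈ zz α := h
    unfold zz at h'
    rw [Ordinal.mem_toZFSet_iff] at h'
    obtain ⟨a, ha, rfl⟩ := h'
    obtain ⟨β, hβ, rfl⟩ := od_exists_lt ha
    exact ⟨β, hβ, rfl⟩
  · rintro ⟨β, hβ, rfl⟩
    exact (zz_mem_zz β α).2 hβ

theorem zz_inj {α β : Om} (h : zz α = zz β) : α = β :=
  od_inj (Ordinal.toZFSet_injective h)

theorem isSuccCard_zo (x : ZFSet.{0}) :
    IsSuccCard VE (Ordinal.omega0.{0}).toZFSet x ↔ x = zo := by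
  have h := isSuccCard_V (c := (ℵ₀ : Cardinal.{0})) le_rfl x
  rw [Cardinal.ord_aleph0, Cardinal.succ_aleph0, Cardinal.ord_aleph] at h
  exact h

/-- a set of elements of `ω₁` as a set -/
noncomputable def zs (s : Set Om) : ZFSet.{0} := zo.sep (fun x => ∃ γ ∈ s, x = zz γ)

theorem mem_zs (s : Set Om) (x : ZFSet.{0}) : VE x (zs s) ↔ ∃ γ ∈ s, x = zz γ := by
  show x ∈ zs s ↔ _
  unfold zs
  rw [ZFSet.mem_sep]
  constructor
  · exact fun h => h.2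
  · rintro ⟨γ, hγ, rfl⟩
    exact ⟨(mem_zo _).2 ⟨γ, rfl⟩, γ, hγ, rfl⟩

theorem zz_mem_zs (s : Set Om) (γ : Om) : VE (zz γ) (zs s) ↔ γ ∈ s := by
  rw [mem_zs]
  constructor
  · rintro ⟨γ', h, h'⟩
    rwa [zz_inj h']
  · exact fun h => ⟨γ, h, rfl⟩

theorem isClubIn_zs {t : Set Om} (ht : IsClub t) : IsClubIn VE (zs t) zo := by
  refine ⟨?_, ?_, ?_⟩
  · intro x hx
    obtain ⟨γ, -, rfl⟩ := (mem_zs t x).1 hx
    exact (mem_zo _).2 ⟨γ, rfl⟩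
  · intro x hx
    obtain ⟨β, rfl⟩ := (mem_zo x).1 hx
    obtain ⟨β', hβ'⟩ := exists_gt β
    obtain ⟨γ, hγ, hle⟩ := ht.isCofinal β'
    exact ⟨zz γ, (zz_mem_zs t γ).2 hγ, (zz_mem_zz β γ).2 (hβ'.trans_le hle)⟩
  · intro x hx hne hlim
    obtain ⟨δ, rfl⟩ := (mem_zo x).1 hx
    rw [zz_mem_zs]
    have h1 : ∀ β < δ, ∃ γ ∈ t, γ < δ ∧ β < γ := by
      intro β hβ
      obtain ⟨y, hy1, hy2, hy3⟩ := hlim (zz β) ((zz_mem_zz β δ).2 hβ)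
      obtain ⟨γ, hγ, rfl⟩ := (mem_zs t y).1 hy1
      exact ⟨γ, hγ, (zz_mem_zz γ δ).1 hy2, (zz_mem_zz β γ).1 hy3⟩
    obtain ⟨y, hy⟩ := hne
    obtain ⟨β₀, hβ₀, rfl⟩ := (mem_zz y δ).1 hy
    obtain ⟨γ₀, hγ₀, hγ₀δ, -⟩ := h1 β₀ hβ₀
    refine ht.isLUB_mem (t := t ∩ Set.Iio δ) Set.inter_subset_left ⟨γ₀, hγ₀, hγ₀δ⟩ ⟨?_, ?_⟩
    · intro γ hγ
      exact le_of_lt hγ.2
    · intro b hb
      by_contra hcon
      obtain ⟨γ, hγ, hγδ, hbγ⟩ := h1 b (not_le.1 hcon)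
      exact absurd (hb ⟨hγ, hγδ⟩) (not_le.2 hbγ)

theorem isClub_of_isClubIn {C : ZFSet.{0}} (hC : IsClubIn VE C zo) :
    IsClub {γ : Om | VE (zz γ) C} := by
  obtain ⟨h1, h2, h3⟩ := hC
  constructor
  · intro d hd hne _ a ha
    by_cases had : a ∈ d
    · exact hd had
    · have hlt : ∀ x ∈ d, x < a := fun x hx =>
        lt_of_le_of_ne (ha.1 hx) (fun h => had (h ▸ hx))
      refine h3 (zz a) ((mem_zo _).2 ⟨a, rfl⟩) ?_ ?_
      · obtain ⟨x, hx⟩ := hne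
        exact ⟨zz x, (zz_mem_zz x a).2 (hlt x hx)⟩
      · intro y hy
        obtain ⟨β, hβ, rfl⟩ := (mem_zz y a).1 hy
        obtain ⟨γ, hγ, hβγ⟩ := (lt_isLUB_iff ha).1 hβ
        exact ⟨zz γ, hd hγ, (zz_mem_zz γ a).2 (hlt γ hγ), (zz_mem_zz β γ).2 hβγ⟩
  · intro a
    obtain ⟨y, hy1, hy2⟩ := h2 (zz a) ((mem_zo _).2 ⟨a, rfl⟩)
    obtain ⟨γ, rfl⟩ := (mem_zo y).1 (h1 y hy1)
    exact ⟨γ, hy1, ((zz_mem_zz a γ).1 hy2).le⟩

/-- The diamond principle for `(ZFSet, ∈)` is the diamond principle for the type `ω₁`. -/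
theorem diamond_V : Diamond (fun x y : ZFSet.{0} => x ∈ y) ↔
    ∃ A : Om → Set Om, ∀ S : Set Om, IsStationary {α | S ∩ Set.Iio α = A α} := by
  constructor
  · rintro ⟨w, κ, A, hw, hκ, h⟩
    have hw' := (isOmega_V w).1 hw
    subst hw'
    have hκ' := (isSuccCard_zo κ).1 hκ
    subst hκ'
    refine ⟨fun α => {β | β < α ∧ App VE A (zz α) (zz β)}, fun S t ht => ?_⟩
    obtain ⟨x, hx, hx2⟩ := h (zs S) (zs t) (isClubIn_zs ht)
    obtain ⟨α, hα, rfl⟩ := (mem_zs t x).1 hx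
    refine ⟨α, ?_, hα⟩
    show S ∩ Set.Iio α = {β | β < α ∧ App VE A (zz α) (zz β)}
    ext β
    constructor
    · rintro ⟨h1, h2⟩
      exact ⟨h2, (hx2 (zz β) ((zz_mem_zz β α).2 h2)).1 ((zz_mem_zs S β).2 h1)⟩
    · rintro ⟨h1, h2⟩
      exact ⟨(zz_mem_zs S β).1 ((hx2 (zz β) ((zz_mem_zz β α).2 h1)).2 h2), h1⟩
  · rintro ⟨A, hA⟩
    let G : ZFSet.{0} := (ZFSet.prod zo zo).sep
      (fun p => ∃ α β, p = ZFSet.pair (zz α) (zz β) ∧ β ∈ A α)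
    have hG : ∀ α β, App VE G (zz α) (zz β) ↔ β ∈ A α := by
      intro α β
      rw [app_V, ZFSet.mem_sep, ZFSet.pair_mem_prod]
      constructor
      · rintro ⟨-, a, b, hp, hab⟩
        obtain ⟨h1, h2⟩ := ZFSet.pair_inj.1 hp
        rw [zz_inj h1, zz_inj h2]
        exact hab
      · intro h
        exact ⟨⟨(mem_zo _).2 ⟨α, rfl⟩, (mem_zo _).2 ⟨β, rfl⟩⟩, α, β, rfl, h⟩
    refine ⟨_, _, G, (isOmega_V _).2 rfl, (isSuccCard_zo _).2 rfl, fun S C hC => ?_⟩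
    obtain ⟨α, hα1, hα2⟩ := hA {β | VE (zz β) S} (isClub_of_isClubIn hC)
    refine ⟨zz α, hα2, fun y hy => ?_⟩
    obtain ⟨β, hβ, rfl⟩ := (mem_zz y α).1 hy
    refine Iff.trans ?_ (hG α β).symm
    have h1 : {β | VE (zz β) S} ∩ Set.Iio α = A α := hα1
    rw [← h1]
    constructor
    · intro h2
      exact ⟨h2, hβ⟩
    · intro h2
      exact h2.1

end DM
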