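import Mathlib
import Pool.Agent.H33.DM.Real
import Pool.Agent.H85.Final

/-!
# The model with the diamond principle and the Boolean algebra
-/

set_option autoImplicit false

namespace DM

theorem big : H85.Big Om where
  cIic := by
    intro α
    have h3 : Set.Iic α = insert α (Set.Iio α) := by
      ext x
      rw [Set.mem_Iic, Set.mem_insert_iff, Set.mem_Iio, le_iff_eq_or_lt]
    rw [h3]
    exact (countable_Iio α).insert α
  unc := unc

theorem exists_algebra (h : Diamond (fun x y : ZFSet.{0} => x ∈ y)) :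
    ∃ (B : Type) (_ : BooleanAlgebra B), Uncountable B ∧
      (∀ C : BooleanSubalgebra B, Uncountable C → Nonempty (C ≃o B)) ∧
      (∀ J : Ideal (AsBoolRing B), Uncountable (AsBoolRing B ⧸ J) →
        Nonempty ((AsBoolRing B ⧸ J) ≃+* AsBoolRing B)) ∧
      (∀ J : Ideal (AsBoolRing B), Countable (AsBoolRing B ⧸ J) →
        ∃ (b : B) (e : (AsBoolRing B ⧸ J) ≃ Set.Iic b), ∀ x y, e x ≤ e y ↔ x * y = x) := by
  obtain ⟨A, hA⟩ := diamond_V.1 h
  exact H85.exists_algebra big hA

end DM
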