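import Pool.Agent.H92.PK.Notn

/-!
# The diamond principle in a structure `(M, E)`
-/

set_option autoImplicit false

universe v

open BV PK

namespace DM

section Defs

variable {M : Type v}

/-- `C` is a closed unbounded subset of `κ`: `C ⊆ κ`, every element of `κ` is below an element of
`C`, and every `δ ∈ κ`, `δ ≠ 0`, in which `C ∩ δ` is unbounded belongs to `C` -/
def IsClubIn (E : M → M → Prop) (C κ : M) : Prop :=
  (∀ x, E x C → E x κ) ∧ (∀ β, E β κ → ∃ γ, E γ C ∧ E β γ) ∧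
  ∀ δ, E δ κ → (∃ β, E β δ) → (∀ β, E β δ → ∃ γ, E γ C ∧ E γ δ ∧ E β γ) → E δ C

/-- The diamond principle in `(M, E)`. Here `w` is `ω`, `κ` is its cardinal successor `ω₁`, and
the set `A` of ordered pairs codes the sequence of the sets `A_α = {β ∈ α : ⟨α, β⟩ ∈ A}`: for
every set `S` and every closed unbounded subset `C` of `κ` there is an `α ∈ C` with
`S ∩ α = A_α`. -/
def Diamond (E : M → M → Prop) : Prop :=
  ∃ w κ A, IsOmega E w ∧ IsSuccCard E w κ ∧
    ∀ S C, IsClubIn E C κ → ∃ α, E α C ∧ ∀ β, E β α → (E β S ↔ App E A α β)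

end Defs

theorem def_isClubIn (i j : ℕ) : FDef fun (M : Type v) E w => IsClubIn E (w i) (w j) :=
  (FDef.all (P := fun _ E w => E (w 0) (w (i + 1)) → E (w 0) (w (j + 1)))
    ((FDef.mem 0 (i + 1)).imp (FDef.mem 0 (j + 1)))).and
  ((FDef.all (P := fun _ E w => E (w 0) (w (j + 1)) → ∃ γ, E γ (w (i + 1)) ∧ E (w 0) γ)
    ((FDef.mem 0 (j + 1)).imp
      (FDef.ex (P := fun _ E w => E (w 0) (w (i + 2)) ∧ E (w 1) (w 0))
        ((FDef.mem 0 (i + 2)).and (FDef.mem 1 0))))).and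
  (FDef.all (P := fun _ E w => E (w 0) (w (j + 1)) → (∃ β, E β (w 0)) →
      (∀ β, E β (w 0) → ∃ γ, E γ (w (i + 1)) ∧ E γ (w 0) ∧ E β γ) → E (w 0) (w (i + 1)))
    ((FDef.mem 0 (j + 1)).imp
      ((FDef.ex (P := fun _ E w => E (w 0) (w 1)) (FDef.mem 0 1)).imp
        ((FDef.all (P := fun _ E w => E (w 0) (w 1) →
            ∃ γ, E γ (w (i + 2)) ∧ E γ (w 1) ∧ E (w 0) γ)
          ((FDef.mem 0 1).imp
            (FDef.ex (P := fun _ E w => E (w 0) (w (i + 3)) ∧ E (w 0) (w 2) ∧ E (w 1) (w 0))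
              ((FDef.mem 0 (i + 3)).and ((FDef.mem 0 2).and (FDef.mem 1 0)))))).imp
          (FDef.mem 0 (i + 1)))))))

/-- the body of the conclusion: `w 0 = α`, `w 1 = S`, `w 2 = C`, `w 3 = A` -/
theorem def_guess : FDef fun (M : Type v) E w =>
    E (w 0) (w 2) ∧ ∀ β, E β (w 0) → (E β (w 1) ↔ App E (w 3) (w 0) β) :=
  (FDef.mem 0 2).and
    (FDef.all (P := fun _ E w => E (w 0) (w 1) → (E (w 0) (w 2) ↔ App E (w 4) (w 1) (w 0)))
      ((FDef.mem 0 1).imp ((FDef.mem 0 2).iff (def_app 4 1 0))))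

end DM
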