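import Pool.Agent.H33.DM.Om1
import Pool.Agent.H33.DM.Sent

/-!
# The generic sequence is a diamond sequence
-/

set_option autoImplicit false

open Cardinal Order BV PK HM

namespace DM

variable {B : Type} [CompleteBooleanAlgebra B] {e : Cnd → B}

theorem od_exists_lt {α : Om} {x : Ordinal.{0}} (h : x < od α) : ∃ β : Om, β < α ∧ od β = x := by
  obtain ⟨β, rfl⟩ := exists_od (h.trans (od_lt α))
  exact ⟨β, od_lt_od.1 h, rfl⟩

/-- one step of the construction -/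
theorem step (he : DenseEmb Cnd B e) (S C : BSet B) (q : Cnd)
    (hC : ∀ V : UF B, e q ∈ V →
      IsClubIn (MU.E V) (MU.mk V C) (ck V (Ordinal.omega.{0} 1))) :
    ∃ r, r ≤ q ∧ ∃ γ : Om, q.len < γ ∧ γ < r.len ∧ e r ≤ bmem (chk B (od γ)) C ∧
      ∀ β < q.len, e r ≤ bmem (chk B (od β)) S ∨ e r ≤ (bmem (chk B (od β)) S)ᶜ := by
  have hlos : ∀ (V : UF B) (x : BSet B), (bmem x C ⊓ bmem (chk B (od q.len)) x) ∈ V ↔
      (MU.E V (MU.mk V x) (MU.mk V C) ∧ MU.E V (ck V (od q.len)) (MU.mk V x)) := by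
    intro V x
    rw [UF.inf_mem_iff]
    exact Iff.rfl
  have hext : Ext (fun x => bmem x C ⊓ bmem (chk B (od q.len)) x) :=
    ext_of_los (P := fun V x => MU.E V x (MU.mk V C) ∧ MU.E V (ck V (od q.len)) x) hlos
  have h1 : e q ≤ ⨆ γ : Set.Iio (Ordinal.omega.{0} 1),
      bmem (chk B γ) C ⊓ bmem (chk B (od q.len)) (chk B γ) := by
    rw [← chk_bex (Ordinal.omega.{0} 1) hext]
    refine UF.le_of_forall fun V hV => ?_
    obtain ⟨γ, hγ1, hγ2⟩ := (hC V hV).2.1 (ck V (od q.len)) ((E_ck V _ _).2 (od_lt _))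
    refine (card_iSup (P := fun V x => MU.E V x (ck V (Ordinal.omega.{0} 1)) ∧
      (MU.E V x (MU.mk V C) ∧ MU.E V (ck V (od q.len)) x)) (fun V x => ?_) V).2
      ⟨γ, (hC V hV).1 γ hγ1, hγ1, hγ2⟩
    rw [UF.inf_mem_iff, hlos]
    exact Iff.rfl
  obtain ⟨r₁, hr₁, γ, hγ⟩ := he.exists_le_of_le_iSup h1
  obtain ⟨γ, hγlt⟩ := γ
  obtain ⟨γ, rfl⟩ := exists_od hγlt
  have hlt : q.len < γ := by
    by_contra hcon
    have h2 := hγ.trans inf_le_right
    rw [bmem_chk_of_le (not_lt.1 fun h => hcon (od_lt_od.1 h))] at h2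
    exact he.ne_bot r₁ (le_bot_iff.1 h2)
  obtain ⟨r₂, hr₂, hlen⟩ := exists_longer r₁ γ
  have hcount : Countable (Set.Iio q.len) := Set.countable_coe_iff.2 (countable_Iio q.len)
  obtain ⟨r₃, hr₃, hdec⟩ := exists_decide_all he r₂
    (fun β : Set.Iio q.len => bmem (chk B (od β.1)) S)
  refine ⟨r₃, (hr₃.trans hr₂).trans hr₁, γ, hlt, hlen.trans_le hr₃.1, ?_, fun β hβ => hdec ⟨β, hβ⟩⟩
  exact (he.mono _ _ (hr₃.trans hr₂)).trans (hγ.trans inf_le_left)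

/-- below every condition which forces that `C` is a club there is a condition which forces that
`S` is guessed at an element of `C` -/
theorem exists_guessing (he : DenseEmb Cnd B e) (S C : BSet B) (p : Cnd)
    (hC : ∀ V : UF B, e p ∈ V →
      IsClubIn (MU.E V) (MU.mk V C) (ck V (Ordinal.omega.{0} 1))) :
    ∃ q, q ≤ p ∧ ∃ α : Om, ∀ V : UF B, e q ∈ V →
      MU.E V (ck V (od α)) (MU.mk V C) ∧ ∀ β, MU.E V β (ck V (od α)) →
        (MU.E V β (MU.mk V S) ↔ App (MU.E V) (MU.mk V (gA e)) (ck V (od α)) β) := by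
  classical
  have hstep : ∀ q : {q : Cnd // q ≤ p}, ∃ r : {q : Cnd // q ≤ p}, r.1 ≤ q.1 ∧
      ∃ γ : Om, q.1.len < γ ∧ γ < r.1.len ∧ e r.1 ≤ bmem (chk B (od γ)) C ∧
      ∀ β < q.1.len, e r.1 ≤ bmem (chk B (od β)) S ∨ e r.1 ≤ (bmem (chk B (od β)) S)ᶜ := by
    intro q
    obtain ⟨r, hr, h⟩ := step he S C q.1 (fun V hV => hC V (V.mem_of_le hV (he.mono _ _ q.2)))
    exact ⟨⟨r, hr.trans q.2⟩, hr, h⟩
  choose nx hnx1 g hg1 hg2 hg3 hg4 using hstep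
  let F : ℕ → {q : Cnd // q ≤ p} := fun n => Nat.rec ⟨p, le_rfl⟩ (fun _ q => nx q) n
  have hF : ∀ n, F (n + 1) = nx (F n) := fun n => rfl
  obtain ⟨q, hq, hlub⟩ := exists_lim (fun n => (F n).1) (fun n => by
    rw [hF n]
    exact hnx1 _)
  obtain ⟨α, hα⟩ : ∃ α, q.len = α := ⟨_, rfl⟩
  rw [hα] at hlub
  have hlen : ∀ n, (F n).1.len ≤ α := fun n => hlub.1 ⟨n, rfl⟩
  have hgα : ∀ n, g (F n) < α := fun n => (hg2 (F n)).trans_le (hlen (n + 1))
  have hex : ∀ β, β < α → ∃ n, β < (F n).1.len := by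
    intro β hβ
    obtain ⟨_, ⟨n, rfl⟩, hn⟩ := (lt_isLUB_iff hlub).1 hβ
    exact ⟨n, hn⟩
  obtain ⟨r, hr, hrlen, hrval⟩ := exists_guess q {β | e q ≤ bmem (chk B (od β)) S}
  rw [hα] at hrlen hrval
  -- `α` belongs to `C`
  have hαC : ∀ V : UF B, e r ∈ V → MU.E V (ck V (od α)) (MU.mk V C) := by
    intro V hV
    have hVq : e q ∈ V := V.mem_of_le hV (he.mono r q hr)
    have hclub := hC V (V.mem_of_le hVq (he.mono q p (hq 0)))
    refine hclub.2.2 _ ((E_ck V _ _).2 (od_lt α))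
      ⟨ck V (od (g (F 0))), (E_ck V _ _).2 (od_lt_od.2 (hgα 0))⟩ ?_
    have hdef : FDef2 fun (M : Type 1) E _ w => ∃ γ, E γ (w 1) ∧ E γ (w 2) ∧ E (w 0) γ :=
      FDef2.ofDef (FDef.ex (P := fun _ E w => E (w 0) (w 2) ∧ E (w 0) (w 3) ∧ E (w 1) (w 0))
        ((FDef.mem 0 2).and ((FDef.mem 0 3).and (FDef.mem 1 0))))
    obtain ⟨f, -, hfP⟩ := exists_bool hdef (scons C (fun _ => chk B (od α)))
    intro β hβ
    refine ball_ck' (P := fun V m => ∃ γ, MU.E V γ (MU.mk V C) ∧ MU.E V γ (ck V (od α)) ∧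
      MU.E V m γ) hfP (od α) (e q) ?_ V hVq β hβ
    intro W hW η hη
    obtain ⟨β, hβα, rfl⟩ := od_exists_lt hη
    obtain ⟨n, hn⟩ := hex β hβα
    refine ⟨ck W (od (g (F n))), ?_, (E_ck W _ _).2 (od_lt_od.2 (hgα n)),
      (E_ck W _ _).2 (od_lt_od.2 (hn.trans (hg1 (F n))))⟩
    exact W.mem_of_le hW ((he.mono _ _ (hq (n + 1))).trans (hg3 (F n)))
  refine ⟨r, hr.trans (hq 0), α, fun V hV => ⟨hαC V hV, ?_⟩⟩
  -- `S` is guessed at `α`
  have hdef : FDef2 fun (M : Type 1) E _ w => (E (w 0) (w 1) ↔ App E (w 2) (w 3) (w 0)) :=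
    FDef2.ofDef ((FDef.mem 0 1).iff (def_app 2 3 0))
  obtain ⟨f, -, hfP⟩ := exists_bool hdef (scons S (scons (gA e) (fun _ => chk B (od α))))
  intro β hβ
  refine ball_ck' (P := fun V m => (MU.E V m (MU.mk V S) ↔
    App (MU.E V) (MU.mk V (gA e)) (ck V (od α)) m)) hfP (od α) (e r) ?_ V hV β hβ
  intro W hW η hη
  obtain ⟨β, hβα, rfl⟩ := od_exists_lt hη
  obtain ⟨n, hn⟩ := hex β hβα
  have hWq : e q ∈ W := W.mem_of_le hW (he.mono r q hr)
  show bmem (chk B (od β)) S ∈ W ↔ _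
  rw [app_gA he hrlen hW, hrval, Set.mem_ofPred_eq]
  constructor
  · intro h
    rcases hg4 (F n) β hn with h1 | h1
    · exact (he.mono _ _ (hq (n + 1))).trans h1
    · exact absurd h (W.compl_mem_iff.1
        (W.mem_of_le hWq ((he.mono _ _ (hq (n + 1))).trans h1)))
  · intro h
    exact W.mem_of_le hWq h

theorem guess (he : DenseEmb Cnd B e) (U : UF B) (S C : MU U)
    (hC : IsClubIn (MU.E U) C (ck U (Ordinal.omega.{0} 1))) :
    ∃ α, MU.E U α C ∧ ∀ β, MU.E U β α →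
      (MU.E U β S ↔ App (MU.E U) (MU.mk U (gA e)) α β) := by
  obtain ⟨S, rfl⟩ := MU.mk_surj U S
  obtain ⟨C, rfl⟩ := MU.mk_surj U C
  obtain ⟨c, -, hc⟩ := exists_bool (FDef2.ofDef (def_isClubIn.{1} 0 1))
    (fun _ => chk B (Ordinal.omega.{0} 1))
  obtain ⟨f, hf, hfP⟩ := exists_bool (FDef2.ofDef def_guess.{1}) (scons S (scons C (fun _ => gA e)))
  have hsup : (⨆ x, f x) ∈ U ↔ ∃ α, MU.E U α (MU.mk U C) ∧ ∀ β, MU.E U β α →
      (MU.E U β (MU.mk U S) ↔ App (MU.E U) (MU.mk U (gA e)) α β) :=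
    los_iSup hf U (P := fun α => MU.E U α (MU.mk U C) ∧ ∀ β, MU.E U β α →
      (MU.E U β (MU.mk U S) ↔ App (MU.E U) (MU.mk U (gA e)) α β)) (fun x => hfP U x)
  rw [← hsup]
  have hcU : c C ∈ U := (hc U C).2 hC
  refine U.mem_of_le hcU ?_
  by_contra hcon
  have h1 : c C ⊓ (⨆ x, f x)ᶜ ≠ ⊥ := fun h0 => hcon (by rwa [← sdiff_eq, sdiff_eq_bot_iff] at h0)
  obtain ⟨p, hp⟩ := he.dense _ h1
  obtain ⟨q, hq, α, hα⟩ := exists_guessing he S C p
    (fun V hV => (hc V C).1 (V.mem_of_le hV (hp.trans inf_le_left)))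
  apply he.ne_bot q
  rw [← le_bot_iff]
  calc e q ≤ (⨆ x, f x) ⊓ (⨆ x, f x)ᶜ := by
        refine le_inf ?_ ((he.mono q p hq).trans (hp.trans inf_le_right))
        refine le_trans ?_ (le_iSup f (chk B (od α)))
        exact UF.le_of_forall fun V hV => (hfP V _).2 (hα V hV)
    _ = ⊥ := inf_compl_eq_bot

theorem diamond_MU (he : DenseEmb Cnd B e) (U : UF B) : Diamond (MU.E U) :=
  ⟨om U, ck U (Ordinal.omega.{0} 1), MU.mk U (gA e), isOmega_om U, isSuccCard_omega1 he U,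
    fun S C hC => guess he U S C hC⟩

/-- There is a model of ZFC in which the diamond principle holds. -/
theorem exists_model : ∃ (M : Type 1) (E : M → M → Prop), IsZFC E ∧ Diamond E := by
  obtain ⟨B, iB, e, he⟩ := exists_denseEmb Cnd
  have h1 : (⊤ : B) ≠ ⊥ := by
    intro h
    have hp : Nonempty Om := by
      have := unc
      exact (inferInstance : Infinite Om).nonempty
    obtain ⟨a⟩ := hp
    exact he.ne_bot ⟨a, fun _ => ∅⟩ (le_bot_iff.1 (le_top.trans h.le))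
  obtain ⟨U, -⟩ := UF.exists_mem (B := B) h1
  exact ⟨MU U, MU.E U, isZFC U, diamond_MU he U⟩

end DM
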