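import Pool.Agent.H33.DM.Poset
import Pool.Agent.H26.BV.Card

/-!
# The generic diamond sequence
-/

set_option autoImplicit false

open Cardinal Order BV

namespace DM

variable {B : Type} [CompleteBooleanAlgebra B] (e : Cnd → B)

/-- an element of `ω₁` as an ordinal -/
noncomputable abbrev od (α : Om) : Ordinal.{0} := (α.toOrd : Ordinal.{0})

theorem od_lt (α : Om) : od α < Ordinal.omega.{0} 1 := α.toOrd.2

theorem od_lt_od {α β : Om} : od α < od β ↔ α < β := by
  show ((α.toOrd : Set.Iio (Ordinal.omega.{0} 1)) : Ordinal.{0}) < _ ↔ _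
  rw [Subtype.coe_lt_coe]
  exact (Ordinal.ToType.mk (o := Ordinal.omega.{0} 1)).symm.lt_iff_lt

theorem exists_od {x : Ordinal.{0}} (h : x < Ordinal.omega.{0} 1) : ∃ α : Om, od α = x := by
  refine ⟨Ordinal.ToType.mk ⟨x, h⟩, ?_⟩
  simp [od]

theorem od_inj {α β : Om} (h : od α = od β) : α = β := by
  rcases lt_trichotomy α β with h1 | h1 | h1
  · exact absurd h (od_lt_od.2 h1).ne
  · exact h1
  · exact absurd h (od_lt_od.2 h1).ne'

/-- Boolean value of `β ∈ A_α` -/
noncomputable def gv (α β : Om) : B := ⨆ p : {p : Cnd // α < p.len ∧ β ∈ p.val α}, e p.1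

/-- name of the set of the pairs `⟨α, β⟩` with `β ∈ A_α` -/
noncomputable def gA : BSet B :=
  BSet.mk (Om × Om) (fun x => opr (chk B (od x.1)) (chk B (od x.2))) (fun x => gv e x.1 x.2)

variable {e}

theorem bmem_gA (α β : Om) : bmem (opr (chk B (od α)) (chk B (od β))) (gA e) = gv e α β := by
  show (⨆ x : Om × Om, gv e x.1 x.2 ⊓
    beq (opr (chk B (od α)) (chk B (od β))) (opr (chk B (od x.1)) (chk B (od x.2)))) = _
  apply le_antisymm
  · refine iSup_le fun x => ?_
    obtain ⟨a, b⟩ := x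
    rw [beq_opr]
    by_cases h1 : a = α
    · by_cases h2 : b = β
      · subst h1 h2
        exact inf_le_left
      · rw [beq_chk_of_ne (fun h => h2 (od_inj h.symm)), inf_bot_eq, inf_bot_eq]
        exact bot_le
    · rw [beq_chk_of_ne (fun h => h1 (od_inj h.symm)), bot_inf_eq, inf_bot_eq]
      exact bot_le
  · refine le_trans ?_ (le_iSup _ (α, β))
    rw [beq_refl, inf_top_eq]

theorem le_gv {q : Cnd} {α β : Om} (h : α < q.len) (h' : β ∈ q.val α) : e q ≤ gv e α β :=
  le_iSup (fun p : {p : Cnd // α < p.len ∧ β ∈ p.val α} => e p.1) ⟨q, h, h'⟩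

theorem disj_gv (he : DenseEmb Cnd B e) {q : Cnd} {α β : Om} (h : α < q.len)
    (h' : β ∉ q.val α) : e q ⊓ gv e α β = ⊥ := by
  rw [gv, inf_iSup_eq]
  refine iSup_eq_bot.2 fun p => ?_
  by_contra hne
  obtain ⟨r, hr1, hr2⟩ := he.compat q p.1 hne
  apply h'
  rw [← hr1.2 α h, hr2.2 α p.2.1]
  exact p.2.2

/-- the generic sequence in the quotients -/
theorem app_gA (he : DenseEmb Cnd B e) {q : Cnd} {α β : Om} (h : α < q.len) {U : UF B}
    (hU : e q ∈ U) :
    App (MU.E U) (MU.mk U (gA e)) (ck U (od α)) (ck U (od β)) ↔ β ∈ q.val α := by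
  unfold ck
  rw [← los_app, bmem_gA]
  constructor
  · intro h1
    by_contra h2
    have h3 := U.inf_mem hU h1
    rw [disj_gv he h h2] at h3
    exact U.bot_notMem h3
  · intro h1
    exact U.mem_of_le hU (le_gv h h1)

end DM
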