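import Pool.Agent.H33.DM.Name
import Pool.Agent.H71.HM.Om
import Pool.Agent.H26.BV.Rel

/-!
# `ω₁` is the cardinal successor of `ω` in the quotients
-/

set_option autoImplicit false

open Cardinal Order BV PK HM

namespace DM

variable {B : Type} [CompleteBooleanAlgebra B] {e : Cnd → B}

theorem card_lt_omega1 {β : Ordinal.{0}} (hβ : β < Ordinal.omega.{0} 1) : β.card ≤ ℵ₀ := by
  rw [← Cardinal.ord_aleph, Cardinal.lt_ord, ← Cardinal.succ_aleph0, Order.lt_succ_iff] at hβ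
  exact hβ

theorem countable_Iio_ord {β : Ordinal.{0}} (hβ : β < Ordinal.omega.{0} 1) :
    Countable (Set.Iio β) := by
  rw [← Cardinal.mk_le_aleph0_iff, Cardinal.mk_Iio_ordinal]
  have h1 := card_lt_omega1 hβ
  rw [Cardinal.lift_le_aleph0]
  exact h1

/-- `ω₁` is not collapsed: for each `η < β` decide the `ξ` with `⟨ξ, η⟩ ∈ f` -/
theorem no_inj_omega1 (he : DenseEmb Cnd B e) (U : UF B) {β : Ordinal.{0}}
    (hβ : β < Ordinal.omega.{0} 1) (f : MU U) :
    ¬ InjOn (MU.E U) f (fun x => MU.E U x (ck U (Ordinal.omega.{0} 1)))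
      (fun x => MU.E U x (ck U β)) := by
  intro hf
  obtain ⟨F, rfl⟩ := MU.mk_surj U f
  set X : BSet B → B := fun x => bmem x (chk B (Ordinal.omega.{0} 1)) with hXdef
  set Y : BSet B → B := fun x => bmem x (chk B β) with hYdef
  have hlos : ∀ V : UF B, bInjOn F X Y ∈ V ↔
      InjOn (MU.E V) (MU.mk V F) (fun x => MU.E V x (ck V (Ordinal.omega.{0} 1)))
        (fun x => MU.E V x (ck V β)) := fun V =>
    los_injOn (X := X) (Y := Y) (X' := fun V x => MU.E V x (ck V (Ordinal.omega.{0} 1)))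
      (Y' := fun V x => MU.E V x (ck V β)) (fun U x => Iff.rfl) (fun U x => Iff.rfl) V F
  obtain ⟨p, hp⟩ := he.dense _ (UF.ne_bot_of_mem U ((hlos U).2 hf))
  have hcount := countable_Iio_ord hβ
  let R : Om → Set.Iio β → B := fun ξ η => bmem (opr (chk B (od ξ)) (chk B η)) F
  obtain ⟨q, hq, hD⟩ := exists_fusion
    (fun (η : Set.Iio β) q => (∃ ξ, e q ≤ R ξ η) ∨ e q ≤ (⨆ ξ, R ξ η)ᶜ)
    (by
      rintro η p q hq (⟨ξ, h⟩ | h)
      · exact Or.inl ⟨ξ, (he.mono q p hq).trans h⟩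
      · exact Or.inr ((he.mono q p hq).trans h))
    p
    (by
      intro η p _
      obtain ⟨q, hq, h | h⟩ := exists_decide he p (⨆ ξ, R ξ η)
      · obtain ⟨r, hr, ξ, hξ⟩ := he.exists_le_of_le_iSup h
        exact ⟨r, hr.trans hq, Or.inl ⟨ξ, hξ⟩⟩
      · exact ⟨q, hq, Or.inr h⟩)
  have hg : ∀ η : Set.Iio β, ∃ ξ, e q ≤ R ξ η ∨ e q ≤ (⨆ ξ, R ξ η)ᶜ := by
    intro η
    rcases hD η with ⟨ξ, h⟩ | h
    · exact ⟨ξ, Or.inl h⟩
    · exact ⟨p.len, Or.inr h⟩
  choose g hg using hg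
  obtain ⟨ξ, hξ⟩ := bdd (Set.countable_range g)
  have h1 : e q ≤ ⨆ η : Set.Iio β, bmem (opr (chk B (od ξ)) (chk B η)) F := by
    rw [← chk_bex β (card_ext_app F (chk B (od ξ)))]
    refine UF.le_of_forall fun V hV => ?_
    have hV2 := (hlos V).1 (V.mem_of_le hV ((he.mono q p hq).trans hp))
    obtain ⟨y, hy, hy2⟩ := hV2.1 (ck V (od ξ)) ((E_ck V _ _).2 (od_lt ξ))
    refine (card_iSup (P := fun V y => MU.E V y (ck V β) ∧
      App (MU.E V) (MU.mk V F) (ck V (od ξ)) y) (fun V y => ?_) V).2 ⟨y, hy, hy2⟩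
    rw [UF.inf_mem_iff, los_app]
    exact Iff.rfl
  obtain ⟨r, hr, η, hη⟩ := he.exists_le_of_le_iSup h1
  obtain ⟨V, hV⟩ := UF.exists_mem (he.ne_bot r)
  have hVq : e q ∈ V := V.mem_of_le hV (he.mono r q hr)
  have h2 : R ξ η ∈ V := V.mem_of_le hV hη
  rcases hg η with h | h
  · have h3 : R (g η) η ∈ V := V.mem_of_le hVq h
    have hV2 := (hlos V).1 (V.mem_of_le hVq ((he.mono q p hq).trans hp))
    have h4 := hV2.2.2 (ck V (od ξ)) (ck V (od (g η))) (ck V η)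
      ((E_ck V _ _).2 (od_lt ξ)) ((E_ck V _ _).2 (od_lt _)) ((los_app V _ _ _).1 h2)
      ((los_app V _ _ _).1 h3)
    have h5 := od_inj (ck_inj V h4)
    exact absurd (hξ _ ⟨η, rfl⟩) (by rw [h5]; exact lt_irrefl _)
  · exact V.compl_mem_iff.1 (V.mem_of_le hVq h) (V.iSup_mem_of_mem (i := ξ) h2)

theorem infCard_omega1 (he : DenseEmb Cnd B e) (U : UF B) :
    InfCard (MU.E U) (ck U (Ordinal.omega.{0} 1)) := by
  have hlim : IsSuccLimit (Ordinal.omega.{0} 1) := Cardinal.isSuccLimit_omega 1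
  refine ⟨isOrd_ck U _, ⟨ck U 0, (E_ck U _ _).2 (Ordinal.omega_pos 1)⟩, ?_, ?_⟩
  · intro β hβ
    refine ball_ck (f := fun x => ⨆ γ, bmem γ (chk B (Ordinal.omega.{0} 1)) ⊓ bmem x γ)
      (P := fun U β => ∃ γ, MU.E U γ (ck U (Ordinal.omega.{0} 1)) ∧ MU.E U β γ)
      (fun V x => ?_) (Ordinal.omega.{0} 1) ?_ U β hβ
    · refine card_iSup (P := fun V γ => MU.E V γ (ck V (Ordinal.omega.{0} 1)) ∧
        MU.E V (MU.mk V x) γ) (fun V γ => ?_) V
      rw [UF.inf_mem_iff]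
      exact Iff.rfl
    · intro V α hα
      exact ⟨ck V (succ α), (E_ck V _ _).2 (hlim.succ_lt hα), (E_ck V _ _).2 (lt_succ α)⟩
  · intro β hβ
    refine ball_ck (f := fun x => ⨅ f, (bInjOn f (fun z => bmem z (chk B (Ordinal.omega.{0} 1)))
      (fun z => bmem z x))ᶜ)
      (P := fun U β => ∀ f, ¬ InjOn (MU.E U) f (fun z => MU.E U z (ck U (Ordinal.omega.{0} 1)))
        (fun z => MU.E U z β)) (fun V x => ?_) (Ordinal.omega.{0} 1) ?_ U β hβ
    · refine card_iInf (P := fun V f => ¬ InjOn (MU.E V) f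
        (fun z => MU.E V z (ck V (Ordinal.omega.{0} 1)))
        (fun z => MU.E V z (MU.mk V x))) (fun V f => ?_) V
      rw [UF.compl_mem_iff]
      refine not_congr ?_
      exact los_injOn (X' := fun V z => MU.E V z (ck V (Ordinal.omega.{0} 1)))
        (Y' := fun V z => MU.E V z (MU.mk V x)) (fun U x => Iff.rfl) (fun U x => Iff.rfl) V f
    · intro V α hα f hf
      exact no_inj_omega1 he V hα f hf

/-- below `ω₁` there is no cardinal above `ω` -/
theorem not_infCard_below (U : UF B) (μ : MU U) (hμ : MU.E U μ (ck U (Ordinal.omega.{0} 1)))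
    (h : MU.E U (om U) μ) : ¬ InfCard (MU.E U) μ := by
  intro hc
  have hdef : FDef2 fun (M : Type 1) E _ w => ∃ f, InjOn E f (fun x => E x (w 0)) (fun x => E x (w 1)) :=
    FDef2.ofDef (FDef.ex (P := fun _ E w =>
      InjOn E (w 0) (fun x => E x (w 1)) (fun x => E x (w 2))) (def_injOn 0 1 2))
  obtain ⟨f, hf⟩ := ball_chk hdef (fun _ => chk B Ordinal.omega0) (Ordinal.omega.{0} 1) (by
    intro V β hβ
    refine injOn_of_card_le (β := Ordinal.omega0) ?_ V
    rw [Ordinal.card_omega0]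
    exact card_lt_omega1 hβ) U μ hμ
  exact hc.2.2.2 (om U) h f hf

theorem isSuccCard_omega1 (he : DenseEmb Cnd B e) (U : UF B) :
    IsSuccCard (MU.E U) (om U) (ck U (Ordinal.omega.{0} 1)) := by
  refine ⟨infCard_omega1 he U, (E_ck U _ _).2 Ordinal.omega0_lt_omega_one, fun μ hμ hc => ?_⟩
  rcases MU.trichotomy U μ (om U) hc.1 (isOrd_ck U _) with h | h | h
  · exact Or.inl h
  · exact Or.inr h
  · exact absurd hc (not_infCard_below U μ hμ h)

end DM
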