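import Pool.Agent.H26.BV.Rop

/-!
# The forcing poset which adds a diamond sequence

The conditions are sequences of subsets of `ω₁` of length `< ω₁`, ordered by extension.
-/

set_option autoImplicit false

open Cardinal Order BV

namespace DM

/-- the set of all ordinals below `ω₁` -/
abbrev Om : Type := (Ordinal.omega.{0} 1).ToType

/-- conditions: `val α` for `α < len` is the set guessed at `α` -/
structure Cnd : Type where
  len : Om
  val : Om → Set Om

instance : Preorder Cnd where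
  le q p := p.len ≤ q.len ∧ ∀ β < p.len, q.val β = p.val β
  le_refl p := ⟨le_rfl, fun _ _ => rfl⟩
  le_trans r q p h1 h2 :=
    ⟨h2.1.trans h1.1, fun β hβ => (h1.2 β (hβ.trans_le h2.1)).trans (h2.2 β hβ)⟩

theorem le_def (q p : Cnd) : q ≤ p ↔ p.len ≤ q.len ∧ ∀ β < p.len, q.val β = p.val β := Iff.rfl

/-- initial segments of `ω₁` are countable -/
theorem countable_Iio (α : Om) : (Set.Iio α).Countable := by
  have h1 : Ordinal.typein (α := Om) (· < ·) α < Ordinal.omega.{0} 1 :=
    Ordinal.typein_lt_self α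
  have h4 : Ordinal.typein (α := Om) (· < ·) α < (Cardinal.aleph.{0} 1).ord := by
    rw [Cardinal.ord_aleph]; exact h1
  rw [Cardinal.lt_ord, Ordinal.card_typein, ← Cardinal.succ_aleph0, Order.lt_succ_iff] at h4
  exact Cardinal.le_aleph0_iff_set_countable.1 h4

theorem unc : Uncountable Om := by
  rw [← Cardinal.aleph0_lt_mk_iff, Cardinal.mk_toType, Ordinal.card_omega]
  exact Cardinal.aleph0_lt_aleph_one

/-- countable subsets of `ω₁` are bounded -/
theorem bdd {s : Set Om} (hs : s.Countable) : ∃ a, ∀ x ∈ s, x < a := by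
  by_contra hcon
  push Not at hcon
  have h1 : (⋃ x ∈ s, Set.Iic x) = Set.univ := by
    rw [Set.eq_univ_iff_forall]
    intro a
    obtain ⟨x, hx, hax⟩ := hcon a
    exact Set.mem_biUnion hx hax
  have h2 : (⋃ x ∈ s, Set.Iic x).Countable := by
    refine hs.biUnion fun x _ => ?_
    have h3 : Set.Iic x = insert x (Set.Iio x) := by
      ext y
      rw [Set.mem_Iic, Set.mem_insert_iff, Set.mem_Iio, le_iff_eq_or_lt]
    rw [h3]
    exact (countable_Iio x).insert x
  rw [h1, Set.countable_univ_iff] at h2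
  have h3 := unc
  exact not_countable h2

theorem exists_gt (a : Om) : ∃ b, a < b := by
  obtain ⟨b, hb⟩ := bdd (Set.countable_singleton a)
  exact ⟨b, hb a rfl⟩

theorem exists_isLUB {s : Set Om} (hs : s.Countable) : ∃ b, IsLUB s b := by
  obtain ⟨a, ha⟩ := bdd hs
  obtain ⟨b, hb, hmin⟩ := (wellFounded_lt (α := Om)).has_min (upperBounds s)
    ⟨a, fun x hx => (ha x hx).le⟩
  exact ⟨b, hb, fun c hc => not_lt.1 (hmin c hc)⟩

/-- descending sequences of conditions have lower bounds -/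
theorem exists_lim (p : ℕ → Cnd) (hp : ∀ n, p (n + 1) ≤ p n) :
    ∃ q : Cnd, (∀ n, q ≤ p n) ∧ IsLUB (Set.range fun n => (p n).len) q.len := by
  classical
  have hanti : Antitone p := antitone_nat_of_succ_le hp
  obtain ⟨b, hb⟩ := exists_isLUB (Set.countable_range fun n => (p n).len)
  let v : Om → Set Om := fun β =>
    if h : ∃ n, β < (p n).len then (p (Nat.find h)).val β else ∅
  refine ⟨⟨b, v⟩, fun n => ⟨hb.1 ⟨n, rfl⟩, fun β hβ => ?_⟩, hb⟩
  have h : ∃ n, β < (p n).len := ⟨n, hβ⟩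
  show v β = (p n).val β
  have h1 : v β = (p (Nat.find h)).val β := dif_pos h
  rw [h1]
  exact ((hanti (Nat.find_min' h hβ)).2 β (Nat.find_spec h)).symm

/-- countably many open sets which are dense below a condition have a common element -/
theorem exists_fusion_nat (D : ℕ → Cnd → Prop) (hopen : ∀ k p q, q ≤ p → D k p → D k q)
    (p₀ : Cnd) (hd : ∀ k p, p ≤ p₀ → ∃ q, q ≤ p ∧ D k q) : ∃ q, q ≤ p₀ ∧ ∀ k, D k q := by
  choose f hf1 hf2 using hd
  let F : ℕ → {p : Cnd // p ≤ p₀} := fun n =>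
    Nat.rec ⟨p₀, le_rfl⟩ (fun k p => ⟨f k p.1 p.2, (hf1 k p.1 p.2).trans p.2⟩) n
  have hF : ∀ n, F (n + 1) = ⟨f n (F n).1 (F n).2, (hf1 n (F n).1 (F n).2).trans (F n).2⟩ :=
    fun n => rfl
  obtain ⟨q, hq, -⟩ := exists_lim (fun n => (F n).1) (fun n => by
    rw [hF n]
    exact hf1 n _ _)
  refine ⟨q, hq 0, fun k => hopen k (F (k + 1)).1 q (hq (k + 1)) ?_⟩
  rw [hF k]
  exact hf2 k _ _

theorem exists_fusion {ι : Type*} [Countable ι] (D : ι → Cnd → Prop)
    (hopen : ∀ k p q, q ≤ p → D k p → D k q)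
    (p₀ : Cnd) (hd : ∀ k p, p ≤ p₀ → ∃ q, q ≤ p ∧ D k q) : ∃ q, q ≤ p₀ ∧ ∀ k, D k q := by
  rcases isEmpty_or_nonempty ι with h | h
  · exact ⟨p₀, le_rfl, fun k => h.elim k⟩
  · obtain ⟨g, hg⟩ := exists_surjective_nat ι
    obtain ⟨q, hq, hq2⟩ := exists_fusion_nat (fun n => D (g n)) (fun n => hopen (g n)) p₀
      (fun n => hd (g n))
    refine ⟨q, hq, fun k => ?_⟩
    obtain ⟨n, rfl⟩ := hg k
    exact hq2 n

/-- conditions can be made longer -/
theorem exists_longer (p : Cnd) (a : Om) : ∃ q, q ≤ p ∧ a < q.len := by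
  obtain ⟨b, hb⟩ := exists_gt (max a p.len)
  exact ⟨⟨b, p.val⟩, ⟨((le_max_right a p.len).trans_lt hb).le, fun _ _ => rfl⟩,
    (le_max_left a p.len).trans_lt hb⟩

/-- a condition can be extended by one more guess -/
theorem exists_guess (p : Cnd) (s : Set Om) :
    ∃ q, q ≤ p ∧ p.len < q.len ∧ q.val p.len = s := by
  classical
  obtain ⟨b, hb⟩ := exists_gt p.len
  refine ⟨⟨b, fun β => if β = p.len then s else p.val β⟩, ⟨hb.le, fun β hβ => ?_⟩, hb, ?_⟩
  · exact if_neg hβ.ne
  · exact if_pos rfl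

section Decide

variable {B : Type} [CompleteBooleanAlgebra B] {e : Cnd → B}

theorem exists_decide (he : DenseEmb Cnd B e) (p : Cnd) (b : B) :
    ∃ q, q ≤ p ∧ (e q ≤ b ∨ e q ≤ bᶜ) :=
  he.exists_le_or (by rw [sup_compl_eq_top]; exact le_top)

/-- countably many Boolean values can be decided at once -/
theorem exists_decide_all (he : DenseEmb Cnd B e) (p : Cnd) {ι : Type*} [Countable ι] (b : ι → B) :
    ∃ q, q ≤ p ∧ ∀ k, e q ≤ b k ∨ e q ≤ (b k)ᶜ := by
  refine exists_fusion (fun k q => e q ≤ b k ∨ e q ≤ (b k)ᶜ) (fun k p q hq h => ?_) p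
    (fun k p _ => exists_decide he p (b k))
  have h1 := he.mono q p hq
  rcases h with h | h
  · exact Or.inl (h1.trans h)
  · exact Or.inr (h1.trans h)

end Decide

end DM
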